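import Pool.Agent.Run7.h583.Fill.Cnd

/-!
# Orientable fillings of the circle: the Boolean test for an interval of radii
-/

set_option autoImplicit false

namespace Pool.Agent.Run7.h583.Fill

open Pool.Agent.N979.P1 Pool.Agent.N954.P1

/-- the numbers for the sectors are correct -/
structure Z.Sc (z : Z) : Prop where
  len : z.sec.length = z.L + 1
  cc : ∀ i : Fin (z.L + 1), |Icc2 z.dat.toDat.t i * 10 ^ 28 - ((z.sc i.val).cc : ℝ)| ≤ 1
  cs : ∀ i : Fin (z.L + 1), |Ics2 z.dat.toDat.t i * 10 ^ 28 - ((z.sc i.val).cs : ℝ)| ≤ 1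
  ss : ∀ i : Fin (z.L + 1), |Iss2 z.dat.toDat.t i * 10 ^ 28 - ((z.sc i.val).ss : ℝ)| ≤ 1
  dh : ∀ i : Fin (z.L + 1), Dl z.dat.toDat.t i * 10 ^ 28 ≤ ((z.sc i.val).dh : ℝ)

def g0 (w : Row → ℤ) (_ : Sec) (x : Row) : ℤ := if 0 < w x then 0 else 1
def g1 (w : Row → ℤ) (s : Sec) (x : Row) : ℤ := (10 ^ 12 * s.dh) / w x + 1
def g2 (w : Row → ℤ) (s : Sec) (x : Row) : ℤ := w x * s.cc
def g3 (w : Row → ℤ) (_ : Sec) (x : Row) : ℤ := w x
def g4 (w : Row → ℤ) (r : ℤ) (s : Sec) (x : Row) : ℤ :=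
  w x * ((x.a * r - x.u) * s.cs - (x.b * r - x.v) * s.cc)
def g5 (w : Row → ℤ) (r : ℤ) (_ : Sec) (x : Row) : ℤ :=
  w x * (((x.a * r - x.u).natAbs : ℤ) + ((x.b * r - x.v).natAbs : ℤ))
def g6 (w : Row → ℤ) (r : ℤ) (s : Sec) (x : Row) : ℤ :=
  w x * ((x.a * r - x.u) ^ 2 * s.ss - 2 * (x.a * r - x.u) * (x.b * r - x.v) * s.cs +
    (x.b * r - x.v) ^ 2 * s.cc)
def g7 (w : Row → ℤ) (r : ℤ) (_ : Sec) (x : Row) : ℤ :=
  w x * (2 * ((x.a * r - x.u) ^ 2 + (x.b * r - x.v) ^ 2))
def g8 (w : Row → ℤ) (s : Sec) (x : Row) : ℤ :=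
  w x * (x.a ^ 2 * s.cc + 2 * x.a * x.b * s.cs + x.b ^ 2 * s.ss)
def g9 (w : Row → ℤ) (_ : Sec) (x : Row) : ℤ := w x * (2 * (x.a ^ 2 + x.b ^ 2))
def h1 (w : Row → ℤ) (s : Sec) (x : Row) : ℤ := w x * (-(x.a * s.cs) - x.b * s.ss)
def h2 (w : Row → ℤ) (_ : Sec) (x : Row) : ℤ := w x * ((x.a.natAbs : ℤ) + (x.b.natAbs : ℤ))
def h3 (w : Row → ℤ) (s : Sec) (x : Row) : ℤ := w x * s.ss

/-- `V` is near `m * K`, with the error `E` -/
def near (V E m K : ℤ) : Bool := decide (((10 ^ 12 * V - m * K).natAbs : ℤ) + 10 ^ 12 * E ≤ K)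

theorem near_spec {V E m K : ℤ} (h : near V E m K = true) :
    |(10 : ℝ) ^ 12 * V - m * K| + 10 ^ 12 * E ≤ K := by
  have h' := of_decide_eq_true h
  rw [Int.natCast_natAbs] at h'
  exact_mod_cast h'

/-- The test at the radius `r / 10 ^ 6`, with the weights `10 ^ 12 / w`. -/
def cnd (sec : List Sec) (rs : List Row) (w : Row → ℤ) (r : ℤ) (m : M6) : Bool :=
  decide (0 < r) && m.ok &&
  decide (sum2 (g0 w) sec rs = 0) &&
  decide (2 * 10 ^ 15 * sum2 (g1 w) sec rs ≤ 10 ^ 28 * pP) &&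
  near (sum2 (g2 w) sec rs) (sum2 (g3 w) sec rs) m.m0 (10 ^ 12 * 10 ^ 28) &&
  near (sum2 (g4 w r) sec rs) (sum2 (g5 w r) sec rs) m.m1 (10 ^ 12 * 10 ^ 28 * (10 ^ 14 * r)) &&
  near (sum2 (g6 w r) sec rs) (sum2 (g7 w r) sec rs) m.m2
    (10 ^ 12 * 10 ^ 28 * (10 ^ 14 * r) ^ 2) &&
  near (sum2 (g8 w) sec rs) (sum2 (g9 w) sec rs) m.m3 (10 ^ 12 * 10 ^ 28 * (10 ^ 14) ^ 2) &&
  near (sum2 (h1 w) sec rs) (sum2 (h2 w) sec rs) m.m4 (10 ^ 12 * 10 ^ 28 * 10 ^ 14) &&
  near (sum2 (h3 w) sec rs) (sum2 (g3 w) sec rs) m.m5 (10 ^ 12 * 10 ^ 28)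

theorem abs2 (x y : ℝ) : 2 * |x * y| ≤ x ^ 2 + y ^ 2 := by
  rw [abs_mul, ← sq_abs x, ← sq_abs y]
  nlinarith [sq_nonneg (|x| - |y|)]

theorem absw {w x : ℝ} (hw : 0 ≤ w) : |w * x ^ 2| = w * x ^ 2 :=
  abs_of_nonneg (mul_nonneg hw (sq_nonneg x))

theorem absw' {w x y : ℝ} (hw : 0 ≤ w) : |w * (2 * (x * y))| = w * (2 * |x * y|) := by
  rw [abs_mul, abs_mul 2, abs_of_nonneg hw, abs_two]

theorem sum2_z {z : Z} {J : ℕ} (hz : z.sec.length = z.L + 1) (hl : (z.rows J).length = z.L + 1)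
    (f : Sec → Row → ℤ) :
    sum2 f z.sec (z.rows J) = ∑ i : Fin (z.L + 1), f (z.sc i.val) (z.row J i.val) :=
  sum2_eq f Sec.z Row.z (z.L + 1) z.sec (z.rows J) hz hl

theorem scale' {X V E x s M m : ℝ} {K : ℤ} (hs : 0 < s) (hM : 0 < M)
    (hK : (K : ℝ) = 10 ^ 12 * M * s) (hX : X * (10 ^ 12 * s) = V) (h1 : |V * M - x| ≤ E)
    (h2 : |10 ^ 12 * x - m * K| + 10 ^ 12 * E ≤ K) : |X * 10 ^ 12 - m| ≤ 1 := by
  rw [hK] at h2
  exact scale hs hM (by norm_num) hX h1 h2

theorem Z.Sc.cond {z : Z} (hz : z.Sc) {J : ℕ} (hT : z.Tb J) (hl : (z.rows (J + 1)).length = z.L + 1)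
    (w : Row → ℤ) (r : ℤ) (m : M6) (h : cnd z.sec (z.rows (J + 1)) w r m = true)
    (fa fc : Fin z.N → ℝ) (hfa : ∀ j, fa j = (((if j.val < J + 1 then 1 else 0 : ℚ)) : ℝ))
    (hfc : ∀ j, fc j = (((if j.val < J + 1 then 1 - z.dat.ρ j / (r / 10 ^ 6) else 0 : ℚ)) : ℝ)) :
    Cond z.dat.toDat.t (z.dat.toDat.al fa) (z.dat.toDat.be fa) (z.dat.toDat.al fc)
      (z.dat.toDat.be fc) (fun i => 10 ^ 12 / (w (z.row (J + 1) i.val) : ℝ)) := by
  simp only [cnd, Bool.and_eq_true] at h
  obtain ⟨⟨⟨⟨⟨⟨⟨⟨⟨hr, hm⟩, hw⟩, hs⟩, k0⟩, k1⟩, k2⟩, k3⟩, k4⟩, k5⟩ := h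
  replace hr := of_decide_eq_true hr
  replace hw := of_decide_eq_true hw
  replace hs := of_decide_eq_true hs
  replace k0 := near_spec k0
  replace k1 := near_spec k1
  replace k2 := near_spec k2
  replace k3 := near_spec k3
  replace k4 := near_spec k4
  replace k5 := near_spec k5
  rw [sum2_z hz.len hl] at hw hs
  rw [sum2_z hz.len hl, sum2_z hz.len hl, Int.cast_sum, Int.cast_sum] at k0 k1 k2 k3 k4 k5
  have hr' : (0 : ℝ) < r := by exact_mod_cast hr
  have hrq : (0 : ℚ) < (r : ℚ) / 10 ^ 6 := by positivity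
  obtain rfl : fa = fun j => (((if j.val < J + 1 then 1 else 0 : ℚ)) : ℝ) := funext hfa
  obtain rfl : fc = fun j => (((if j.val < J + 1 then 1 - z.dat.ρ j / (r / 10 ^ 6) else 0 : ℚ)) : ℝ) :=
    funext hfc
  have hA := hT.tabA
  have hC := hT.tabC _ hrq
  -- the weights are positive
  have hw' : ∀ i : Fin (z.L + 1), 0 < w (z.row (J + 1) i.val) := by
    intro i
    have h1 := (Finset.sum_eq_zero_iff_of_nonneg (fun i _ => by
      unfold g0; split_ifs <;> norm_num)).1 hw i (Finset.mem_univ i)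
    by_contra hc
    unfold g0 at h1
    rw [if_neg hc] at h1
    exact one_ne_zero h1
  have hwr : ∀ i : Fin (z.L + 1), (0 : ℝ) < w (z.row (J + 1) i.val) := fun i => by
    exact_mod_cast hw' i
  have eA : ∀ i : Fin (z.L + 1), z.dat.toDat.al
      (fun j => (((if j.val < J + 1 then 1 else 0 : ℚ)) : ℝ)) i =
        ((z.row (J + 1) i.val).a : ℝ) / 10 ^ 14 := fun i => by
    rw [hA.al_eq]; push_cast; rfl
  have eB : ∀ i : Fin (z.L + 1), z.dat.toDat.be
      (fun j => (((if j.val < J + 1 then 1 else 0 : ℚ)) : ℝ)) i =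
        ((z.row (J + 1) i.val).b : ℝ) / 10 ^ 14 := fun i => by
    rw [hA.be_eq]; push_cast; rfl
  have eC : ∀ i : Fin (z.L + 1), z.dat.toDat.al
      (fun j => (((if j.val < J + 1 then 1 - z.dat.ρ j / (r / 10 ^ 6) else 0 : ℚ)) : ℝ)) i =
        (((z.row (J + 1) i.val).a : ℝ) * r - (z.row (J + 1) i.val).u) / (10 ^ 14 * r) := fun i => by
    rw [hC.al_eq]; push_cast; field_simp
  have eD : ∀ i : Fin (z.L + 1), z.dat.toDat.be
      (fun j => (((if j.val < J + 1 then 1 - z.dat.ρ j / (r / 10 ^ 6) else 0 : ℚ)) : ℝ)) i =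
        (((z.row (J + 1) i.val).b : ℝ) * r - (z.row (J + 1) i.val).v) / (10 ^ 14 * r) := fun i => by
    rw [hC.be_eq]; push_cast; field_simp
  refine ⟨fun i => div_pos (by norm_num) (hwr i), ?_, ?_⟩
  · have e1 : ∀ i : Fin (z.L + 1), 10 ^ 12 / (w (z.row (J + 1) i.val) : ℝ) * Dl z.dat.toDat.t i ≤
        ((g1 w (z.sc i.val) (z.row (J + 1) i.val) : ℤ) : ℝ) / 10 ^ 28 := by
      intro i
      have q := Int.lt_ediv_add_one_mul_self (10 ^ 12 * (z.sc i.val).dh) (hw' i)
      have q' : (10 : ℝ) ^ 12 * (z.sc i.val).dh <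
          ((g1 w (z.sc i.val) (z.row (J + 1) i.val) : ℤ) : ℝ) *
            w (z.row (J + 1) i.val) := by
        unfold g1
        exact_mod_cast q
      rw [div_mul_eq_mul_div, div_le_div_iff₀ (hwr i) (by positivity)]
      have := mul_le_mul_of_nonneg_left (hz.dh i) (show (0 : ℝ) ≤ 10 ^ 12 by positivity)
      linarith
    refine (Finset.sum_le_sum fun i _ => e1 i).trans ?_
    rw [← Finset.sum_div, div_le_div_iff₀ (by positivity) (by positivity)]
    have hs' := (Int.cast_le (R := ℝ)).2 hs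
    push_cast at hs'
    have := pP_le
    rw [div_le_iff₀ (by positivity)] at this
    nlinarith
  · intro X00 X01 X11 Y00 Y01 Y11 e0 e1 e2 e3 e4 e5
    simp only [eA, eB, eC, eD] at e0 e1 e2 e3 e4 e5
    have hcc := hz.cc
    have hcs := hz.cs
    have hss := hz.ss
    have hap := fun (P Q R : Fin (z.L + 1) → ℝ) => approx (z.L + 1) P Q R _ _ _ _ _ _ _ hcc hcs hss
    have hM : (0 : ℝ) < 10 ^ 28 := by norm_num
    refine m.fin hm ?_ ?_ ?_ ?_ ?_ ?_
    · refine scale' (s := 1) (M := 10 ^ 28) one_pos hM (by push_cast; ring) rfl ?_ k0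
      have q := hap (fun i => (w (z.row (J + 1) i.val) : ℝ)) (fun _ => 0) (fun _ => 0)
      have e : X00 * (10 ^ 12 * 1) = ∑ i : Fin (z.L + 1), ((w (z.row (J + 1) i.val) : ℝ) *
          Icc2 z.dat.toDat.t i + 0 * Ics2 z.dat.toDat.t i + 0 * Iss2 z.dat.toDat.t i) := by
        rw [e0, Finset.sum_mul]
        refine Finset.sum_congr rfl fun i _ => ?_
        have := (hwr i).ne'
        field_simp
        ring
      rw [e]
      refine (le_of_eq ?_).trans (q.trans (Finset.sum_le_sum fun i _ => ?_))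
      · congr 2
        refine Finset.sum_congr rfl fun i _ => ?_
        unfold g2
        push_cast
        ring
      · rw [abs_of_pos (hwr i), abs_zero, add_zero, add_zero]
        exact le_of_eq rfl
    · refine scale' (s := 10 ^ 14 * (r : ℝ)) (M := 10 ^ 28) (by positivity) hM
        (by push_cast; ring) rfl ?_ k1
      set A : Fin (z.L + 1) → ℝ := fun i =>
        ((z.row (J + 1) i.val).a : ℝ) * r - (z.row (J + 1) i.val).u with hAd
      set B : Fin (z.L + 1) → ℝ := fun i =>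
        ((z.row (J + 1) i.val).b : ℝ) * r - (z.row (J + 1) i.val).v with hBd
      have q := hap (fun i => -((w (z.row (J + 1) i.val) : ℝ) * B i))
        (fun i => (w (z.row (J + 1) i.val) : ℝ) * A i) (fun _ => 0)
      have e : X01 * (10 ^ 12 * (10 ^ 14 * (r : ℝ))) = ∑ i : Fin (z.L + 1),
          (-((w (z.row (J + 1) i.val) : ℝ) * B i) *
          Icc2 z.dat.toDat.t i + (w (z.row (J + 1) i.val) : ℝ) * A i * Ics2 z.dat.toDat.t i +
            0 * Iss2 z.dat.toDat.t i) := by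
        rw [e1, Finset.sum_mul]
        refine Finset.sum_congr rfl fun i _ => ?_
        have := (hwr i).ne'
        rw [hAd, hBd]
        field_simp
        ring
      rw [e]
      refine (le_of_eq ?_).trans (q.trans (Finset.sum_le_sum fun i _ => ?_))
      · congr 2
        refine Finset.sum_congr rfl fun i _ => ?_
        unfold g4
        rw [hAd, hBd]
        push_cast
        ring
      · rw [abs_neg, abs_mul, abs_mul, abs_of_pos (hwr i), abs_zero, add_zero]
        refine le_of_eq ?_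
        unfold g5
        rw [hAd, hBd]
        push_cast [Int.natCast_natAbs]
        ring
    · refine scale' (s := (10 ^ 14 * (r : ℝ)) ^ 2) (M := 10 ^ 28) (by positivity) hM
        (by push_cast; ring) rfl ?_ k2
      set A : Fin (z.L + 1) → ℝ := fun i =>
        ((z.row (J + 1) i.val).a : ℝ) * r - (z.row (J + 1) i.val).u with hAd
      set B : Fin (z.L + 1) → ℝ := fun i =>
        ((z.row (J + 1) i.val).b : ℝ) * r - (z.row (J + 1) i.val).v with hBd
      have q := hap (fun i => (w (z.row (J + 1) i.val) : ℝ) * B i ^ 2)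
        (fun i => -((w (z.row (J + 1) i.val) : ℝ) * (2 * (A i * B i))))
        (fun i => (w (z.row (J + 1) i.val) : ℝ) * A i ^ 2)
      have e : X11 * (10 ^ 12 * (10 ^ 14 * (r : ℝ)) ^ 2) = ∑ i : Fin (z.L + 1),
          ((w (z.row (J + 1) i.val) : ℝ) * B i ^ 2 *
          Icc2 z.dat.toDat.t i + -((w (z.row (J + 1) i.val) : ℝ) * (2 * (A i * B i))) *
            Ics2 z.dat.toDat.t i +
            (w (z.row (J + 1) i.val) : ℝ) * A i ^ 2 * Iss2 z.dat.toDat.t i) := by
        rw [e2, Finset.sum_mul]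
        refine Finset.sum_congr rfl fun i _ => ?_
        have := (hwr i).ne'
        rw [hAd, hBd]
        field_simp
        ring
      rw [e]
      refine (le_of_eq ?_).trans (q.trans (Finset.sum_le_sum fun i _ => ?_))
      · congr 2
        refine Finset.sum_congr rfl fun i _ => ?_
        unfold g6
        rw [hAd, hBd]
        push_cast
        ring
      · rw [abs_neg, absw (hwr i).le, absw' (hwr i).le, absw (hwr i).le]
        unfold g7
        push_cast
        have h3 := mul_le_mul_of_nonneg_left (abs2 (A i) (B i)) (hwr i).le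
        have h4 : ((z.row (J + 1) i.val).a : ℝ) * r - (z.row (J + 1) i.val).u = A i := rfl
        have h5 : ((z.row (J + 1) i.val).b : ℝ) * r - (z.row (J + 1) i.val).v = B i := rfl
        rw [h4, h5]
        linarith
    · refine scale' (s := (10 ^ 14) ^ 2) (M := 10 ^ 28) (by positivity) hM
        (by push_cast; ring) rfl ?_ k3
      set A : Fin (z.L + 1) → ℝ := fun i => ((z.row (J + 1) i.val).a : ℝ) with hAd
      set B : Fin (z.L + 1) → ℝ := fun i => ((z.row (J + 1) i.val).b : ℝ) with hBd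
      have q := hap (fun i => (w (z.row (J + 1) i.val) : ℝ) * A i ^ 2)
        (fun i => (w (z.row (J + 1) i.val) : ℝ) * (2 * (A i * B i)))
        (fun i => (w (z.row (J + 1) i.val) : ℝ) * B i ^ 2)
      have e : Y00 * (10 ^ 12 * (10 ^ 14) ^ 2) = ∑ i : Fin (z.L + 1),
          ((w (z.row (J + 1) i.val) : ℝ) * A i ^ 2 *
          Icc2 z.dat.toDat.t i + (w (z.row (J + 1) i.val) : ℝ) * (2 * (A i * B i)) *
            Ics2 z.dat.toDat.t i +
            (w (z.row (J + 1) i.val) : ℝ) * B i ^ 2 * Iss2 z.dat.toDat.t i) := by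
        rw [e3, Finset.sum_mul]
        refine Finset.sum_congr rfl fun i _ => ?_
        have := (hwr i).ne'
        rw [hAd, hBd]
        field_simp
      rw [e]
      refine (le_of_eq ?_).trans (q.trans (Finset.sum_le_sum fun i _ => ?_))
      · congr 2
        refine Finset.sum_congr rfl fun i _ => ?_
        unfold g8
        rw [hAd, hBd]
        push_cast
        ring
      · rw [absw (hwr i).le, absw' (hwr i).le, absw (hwr i).le]
        unfold g9
        push_cast
        have h3 := mul_le_mul_of_nonneg_left (abs2 (A i) (B i)) (hwr i).le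
        have h4 : ((z.row (J + 1) i.val).a : ℝ) = A i := rfl
        have h5 : ((z.row (J + 1) i.val).b : ℝ) = B i := rfl
        rw [h4, h5]
        linarith
    · refine scale' (s := 10 ^ 14) (M := 10 ^ 28) (by positivity) hM
        (by push_cast; ring) rfl ?_ k4
      set A : Fin (z.L + 1) → ℝ := fun i => ((z.row (J + 1) i.val).a : ℝ) with hAd
      set B : Fin (z.L + 1) → ℝ := fun i => ((z.row (J + 1) i.val).b : ℝ) with hBd
      have q := hap (fun _ => 0) (fun i => -((w (z.row (J + 1) i.val) : ℝ) * A i))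
        (fun i => -((w (z.row (J + 1) i.val) : ℝ) * B i))
      have e : Y01 * (10 ^ 12 * 10 ^ 14) = ∑ i : Fin (z.L + 1),
          (0 * Icc2 z.dat.toDat.t i + -((w (z.row (J + 1) i.val) : ℝ) * A i) *
            Ics2 z.dat.toDat.t i +
            -((w (z.row (J + 1) i.val) : ℝ) * B i) * Iss2 z.dat.toDat.t i) := by
        rw [e4, neg_mul, Finset.sum_mul, ← Finset.sum_neg_distrib]
        refine Finset.sum_congr rfl fun i _ => ?_
        have := (hwr i).ne'
        rw [hAd, hBd]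
        field_simp
        ring
      rw [e]
      refine (le_of_eq ?_).trans (q.trans (Finset.sum_le_sum fun i _ => ?_))
      · congr 2
        refine Finset.sum_congr rfl fun i _ => ?_
        unfold h1
        rw [hAd, hBd]
        push_cast
        ring
      · rw [abs_neg, abs_neg, abs_mul, abs_mul, abs_of_pos (hwr i), abs_zero, zero_add]
        refine le_of_eq ?_
        unfold h2
        rw [hAd, hBd]
        push_cast [Int.natCast_natAbs]
        ring
    · refine scale' (s := 1) (M := 10 ^ 28) one_pos hM (by push_cast; ring) rfl ?_ k5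
      have q := hap (fun _ => 0) (fun _ => 0) (fun i => (w (z.row (J + 1) i.val) : ℝ))
      have e : Y11 * (10 ^ 12 * 1) = ∑ i : Fin (z.L + 1), (0 *
          Icc2 z.dat.toDat.t i + 0 * Ics2 z.dat.toDat.t i +
            (w (z.row (J + 1) i.val) : ℝ) * Iss2 z.dat.toDat.t i) := by
        rw [e5, Finset.sum_mul]
        refine Finset.sum_congr rfl fun i _ => ?_
        have := (hwr i).ne'
        field_simp
        ring
      rw [e]
      refine (le_of_eq ?_).trans (q.trans (Finset.sum_le_sum fun i _ => ?_))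
      · congr 2
        refine Finset.sum_congr rfl fun i _ => ?_
        unfold h3
        push_cast
        ring
      · rw [abs_of_pos (hwr i), abs_zero, zero_add, zero_add]
        exact le_of_eq rfl

end Pool.Agent.Run7.h583.Fill
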