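import Pool.Agent.Run7.h583.Fill.Gen2

/-!
# Orientable fillings of the circle: the numerical condition by integers
-/

set_option autoImplicit false

namespace Pool.Agent.Run7.h583.Fill

open Pool.Agent.N979.P1 Pool.Agent.N954.P1

/-- an approximation of a linear form -/
theorem approx (n : ℕ) (P Q R x y w X Y W : Fin n → ℝ) (M : ℝ) (hx : ∀ i, |x i * M - X i| ≤ 1)
    (hy : ∀ i, |y i * M - Y i| ≤ 1) (hw : ∀ i, |w i * M - W i| ≤ 1) :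
    |(∑ i, (P i * x i + Q i * y i + R i * w i)) * M - ∑ i, (P i * X i + Q i * Y i + R i * W i)| ≤
      ∑ i, (|P i| + |Q i| + |R i|) := by
  rw [Finset.sum_mul, ← Finset.sum_sub_distrib]
  refine (Finset.abs_sum_le_sum_abs _ _).trans (Finset.sum_le_sum fun i _ => ?_)
  have e : (P i * x i + Q i * y i + R i * w i) * M - (P i * X i + Q i * Y i + R i * W i) =
      P i * (x i * M - X i) + Q i * (y i * M - Y i) + R i * (w i * M - W i) := by ring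
  rw [e]
  refine (abs_add_three _ _ _).trans ?_
  rw [abs_mul, abs_mul, abs_mul]
  have h1 := mul_le_mul_of_nonneg_left (hx i) (abs_nonneg (P i))
  have h2 := mul_le_mul_of_nonneg_left (hy i) (abs_nonneg (Q i))
  have h3 := mul_le_mul_of_nonneg_left (hw i) (abs_nonneg (R i))
  linarith

theorem scale {X V x E G s M m : ℝ} (hs : 0 < s) (hM : 0 < M) (hG : 0 < G)
    (hX : X * (10 ^ 12 * s) = V) (h1 : |V * M - x| ≤ E)
    (h2 : |G * x - m * (10 ^ 12 * M * s)| + G * E ≤ 10 ^ 12 * M * s) : |X * G - m| ≤ 1 := by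
  have hK : 0 < 10 ^ 12 * M * s := by positivity
  have e : (X * G - m) * (10 ^ 12 * M * s) =
      G * (V * M - x) + (G * x - m * (10 ^ 12 * M * s)) := by
    rw [← hX]
    ring
  have h3 : |X * G - m| * (10 ^ 12 * M * s) ≤ 1 * (10 ^ 12 * M * s) := by
    rw [← abs_of_pos hK, ← abs_mul, abs_of_pos hK, e]
    refine (abs_add_le _ _).trans ?_
    rw [abs_mul, abs_of_pos hG]
    nlinarith [mul_le_mul_of_nonneg_left h1 hG.le]
  exact le_of_mul_le_mul_right h3 hK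

/-- The lower bound of `10 ^ 15 π`. -/
def pP : ℤ := 3141592653589793

theorem pP_le : ((pP : ℤ) : ℝ) / 10 ^ 15 ≤ Real.pi := by
  have := Real.pi_gt_d20
  unfold pP
  push_cast
  linarith

theorem le_pP : Real.pi ≤ (((pP : ℤ) : ℝ) + 1) / 10 ^ 15 := by
  have := Real.pi_lt_d20
  unfold pP
  push_cast
  linarith

/-- the upper bound of the trace -/
def M6.T (m : M6) : ℤ :=
  (m.m0 + 1) * (m.m3 + 1) + 2 * (m.m1 * m.m4 + m.m1.natAbs + m.m4.natAbs + 1) +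
    (m.m2 + 1) * (m.m5 + 1)

/-- the lower bound of the first determinant -/
def M6.dX (m : M6) : ℤ := (m.m0 - 1) * (m.m2 - 1) - (m.m1.natAbs + 1) ^ 2

/-- the lower bound of the second determinant -/
def M6.dY (m : M6) : ℤ := (m.m3 - 1) * (m.m5 - 1) - (m.m4.natAbs + 1) ^ 2

/-- the lower bound of the product of the determinants -/
def M6.P (m : M6) : ℤ := if 0 ≤ m.dX then m.dX * m.dY else m.dX * ((m.m3 + 1) * (m.m5 + 1))

/-- the final test for the six numbers, which are given with an error of at most `1` -/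
def M6.ok (m : M6) : Bool :=
  decide (1 ≤ m.m0) && decide (1 ≤ m.m2) && decide (1 ≤ m.m3) && decide (1 ≤ m.m5) &&
  decide (0 ≤ m.T) && decide (m.T * 10 ^ 30 ≤ 2 * pP ^ 2 * (10 ^ 12) ^ 2) &&
  decide (0 ≤ m.dY) &&
  decide (0 ≤ pP ^ 4 * (10 ^ 12) ^ 4 - (pP + 1) ^ 2 * 10 ^ 30 * m.T * (10 ^ 12) ^ 2 + m.P * 10 ^ 60)

theorem near_mul {x y m n : ℝ} (h1 : |x - m| ≤ 1) (h2 : |y - n| ≤ 1) :
    x * y ≤ m * n + |m| + |n| + 1 := by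
  have e : x * y = m * n + m * (y - n) + n * (x - m) + (x - m) * (y - n) := by ring
  have a1 : m * (y - n) ≤ |m| := by
    refine (le_abs_self _).trans ?_
    rw [abs_mul]
    exact mul_le_of_le_one_right (abs_nonneg _) h2
  have a2 : n * (x - m) ≤ |n| := by
    refine (le_abs_self _).trans ?_
    rw [abs_mul]
    exact mul_le_of_le_one_right (abs_nonneg _) h1
  have a3 : (x - m) * (y - n) ≤ 1 := by
    refine (le_abs_self _).trans ?_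
    rw [abs_mul]
    exact mul_le_one₀ h1 (abs_nonneg _) h2
  linarith

theorem near_sq {x m : ℝ} (h1 : |x - m| ≤ 1) : x ^ 2 ≤ (|m| + 1) ^ 2 := by
  rw [← sq_abs x]
  refine pow_le_pow_left₀ (abs_nonneg x) ?_ 2
  have := abs_sub_abs_le_abs_sub x m
  linarith

theorem M6.fin (m : M6) (h : m.ok = true) {X00 X01 X11 Y00 Y01 Y11 : ℝ}
    (h0 : |X00 * 10 ^ 12 - m.m0| ≤ 1) (h1 : |X01 * 10 ^ 12 - m.m1| ≤ 1)
    (h2 : |X11 * 10 ^ 12 - m.m2| ≤ 1) (h3 : |Y00 * 10 ^ 12 - m.m3| ≤ 1)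
    (h4 : |Y01 * 10 ^ 12 - m.m4| ≤ 1) (h5 : |Y11 * 10 ^ 12 - m.m5| ≤ 1) :
    X00 * Y00 + 2 * (X01 * Y01) + X11 * Y11 ≤ 2 * Real.pi ^ 2 ∧
    0 ≤ Real.pi ^ 4 - Real.pi ^ 2 * (X00 * Y00 + 2 * (X01 * Y01) + X11 * Y11) +
      (X00 * X11 - X01 ^ 2) * (Y00 * Y11 - Y01 ^ 2) := by
  obtain ⟨m0, m1, m2, m3, m4, m5⟩ := m
  simp only [M6.ok, Bool.and_eq_true, decide_eq_true_eq] at h
  obtain ⟨⟨⟨⟨⟨⟨⟨a0, a2⟩, a3⟩, a5⟩, t0⟩, f1⟩, d2⟩, f2⟩ := h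
  simp only at h0 h1 h2 h3 h4 h5
  have a0' : (1 : ℝ) ≤ m0 := by exact_mod_cast a0
  have a2' : (1 : ℝ) ≤ m2 := by exact_mod_cast a2
  have a3' : (1 : ℝ) ≤ m3 := by exact_mod_cast a3
  have a5' : (1 : ℝ) ≤ m5 := by exact_mod_cast a5
  have eT : ((M6.T ⟨m0, m1, m2, m3, m4, m5⟩ : ℤ) : ℝ) = ((m0 : ℝ) + 1) * (m3 + 1) +
      2 * (m1 * m4 + |(m1 : ℝ)| + |(m4 : ℝ)| + 1) + (m2 + 1) * (m5 + 1) := by
    unfold M6.T
    push_cast [Int.natCast_natAbs]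
    rfl
  have eX : ((M6.dX ⟨m0, m1, m2, m3, m4, m5⟩ : ℤ) : ℝ) =
      ((m0 : ℝ) - 1) * (m2 - 1) - (|(m1 : ℝ)| + 1) ^ 2 := by
    unfold M6.dX
    push_cast [Int.natCast_natAbs]
    rfl
  have eY : ((M6.dY ⟨m0, m1, m2, m3, m4, m5⟩ : ℤ) : ℝ) =
      ((m3 : ℝ) - 1) * (m5 - 1) - (|(m4 : ℝ)| + 1) ^ 2 := by
    unfold M6.dY
    push_cast [Int.natCast_natAbs]
    rfl
  have eP : ((M6.P ⟨m0, m1, m2, m3, m4, m5⟩ : ℤ) : ℝ) =
      if (0 : ℝ) ≤ ((M6.dX ⟨m0, m1, m2, m3, m4, m5⟩ : ℤ) : ℝ) then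
        ((M6.dX ⟨m0, m1, m2, m3, m4, m5⟩ : ℤ) : ℝ) * ((M6.dY ⟨m0, m1, m2, m3, m4, m5⟩ : ℤ) : ℝ)
      else ((M6.dX ⟨m0, m1, m2, m3, m4, m5⟩ : ℤ) : ℝ) * (((m3 : ℝ) + 1) * (m5 + 1)) := by
    unfold M6.P
    by_cases hd : (0 : ℤ) ≤ M6.dX ⟨m0, m1, m2, m3, m4, m5⟩
    · rw [if_pos hd, if_pos (by exact_mod_cast hd)]
      push_cast
      rfl
    · rw [if_neg hd, if_neg (by exact_mod_cast hd)]
      push_cast
      rfl
  have T0 : (0 : ℝ) ≤ ((M6.T ⟨m0, m1, m2, m3, m4, m5⟩ : ℤ) : ℝ) := by exact_mod_cast t0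
  have f1' : ((M6.T ⟨m0, m1, m2, m3, m4, m5⟩ : ℤ) : ℝ) * 10 ^ 30 ≤
    2 * (pP : ℝ) ^ 2 * (10 ^ 12) ^ 2 := by exact_mod_cast f1
  have d2' : (0 : ℝ) ≤ ((M6.dY ⟨m0, m1, m2, m3, m4, m5⟩ : ℤ) : ℝ) := by exact_mod_cast d2
  have f2' : (0 : ℝ) ≤ (pP : ℝ) ^ 4 * (10 ^ 12) ^ 4 - ((pP : ℝ) + 1) ^ 2 * 10 ^ 30 *
    ((M6.T ⟨m0, m1, m2, m3, m4, m5⟩ : ℤ) : ℝ) * (10 ^ 12) ^ 2 +
      ((M6.P ⟨m0, m1, m2, m3, m4, m5⟩ : ℤ) : ℝ) * 10 ^ 60 := by exact_mod_cast f2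
  have b1 := near_mul h1 h4
  have c2 := near_sq h1
  have c4 := near_sq h4
  rw [abs_le] at h0 h1 h2 h3 h4 h5
  rw [eT] at T0 f1' f2'
  rw [eX, eY] at eP
  rw [eP] at f2'
  rw [eY] at d2'
  clear eT eX eY eP
  generalize (m0 : ℝ) = n0 at *
  generalize (m1 : ℝ) = n1 at *
  generalize (m2 : ℝ) = n2 at *
  generalize (m3 : ℝ) = n3 at *
  generalize (m4 : ℝ) = n4 at *
  generalize (m5 : ℝ) = n5 at *
  -- the scaled numbers
  set x0 := X00 * 10 ^ 12 with hx0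
  set x1 := X01 * 10 ^ 12 with hx1
  set x2 := X11 * 10 ^ 12 with hx2
  set y0 := Y00 * 10 ^ 12 with hy0
  set y1 := Y01 * 10 ^ 12 with hy1
  set y2 := Y11 * 10 ^ 12 with hy2
  set T : ℝ := (n0 + 1) * (n3 + 1) + 2 * (n1 * n4 + |n1| + |n4| + 1) + (n2 + 1) * (n5 + 1) with hT
  set dX : ℝ := (n0 - 1) * (n2 - 1) - (|n1| + 1) ^ 2 with hdX
  set dY : ℝ := (n3 - 1) * (n5 - 1) - (|n4| + 1) ^ 2 with hdY
  have b0 : x0 * y0 ≤ (n0 + 1) * (n3 + 1) :=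
    mul_le_mul (by linarith) (by linarith) (by linarith) (by linarith)
  have b2 : x2 * y2 ≤ (n2 + 1) * (n5 + 1) :=
    mul_le_mul (by linarith) (by linarith) (by linarith) (by linarith)
  have tr : x0 * y0 + 2 * (x1 * y1) + x2 * y2 ≤ T := by rw [hT]; linarith
  have c1 : (n0 - 1) * (n2 - 1) ≤ x0 * x2 :=
    mul_le_mul (by linarith) (by linarith) (by linarith) (by linarith)
  have c3 : (n3 - 1) * (n5 - 1) ≤ y0 * y2 :=
    mul_le_mul (by linarith) (by linarith) (by linarith) (by linarith)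
  have e1 : dX ≤ x0 * x2 - x1 ^ 2 := by rw [hdX]; linarith
  have e2 : dY ≤ y0 * y2 - y1 ^ 2 := by rw [hdY]; linarith
  have e4 : 0 ≤ y0 * y2 - y1 ^ 2 := d2'.trans e2
  have e5 : y0 * y2 - y1 ^ 2 ≤ (n3 + 1) * (n5 + 1) := by
    have : y0 * y2 ≤ (n3 + 1) * (n5 + 1) :=
      mul_le_mul (by linarith) (by linarith) (by linarith) (by linarith)
    linarith [sq_nonneg y1]
  set Pr : ℝ := if 0 ≤ dX then dX * dY else dX * ((n3 + 1) * (n5 + 1)) with hPr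
  have e3 : Pr ≤ (x0 * x2 - x1 ^ 2) * (y0 * y2 - y1 ^ 2) := by
    rw [hPr]
    split_ifs with hd
    · exact mul_le_mul e1 e2 d2' (hd.trans e1)
    · exact (mul_le_mul_of_nonpos_left e5 (not_le.1 hd).le).trans
        (mul_le_mul_of_nonneg_right e1 e4)
  have tr' : X00 * Y00 + 2 * (X01 * Y01) + X11 * Y11 =
      (x0 * y0 + 2 * (x1 * y1) + x2 * y2) / 10 ^ 24 := by
    rw [hx0, hx1, hx2, hy0, hy1, hy2]; ring
  have de' : (X00 * X11 - X01 ^ 2) * (Y00 * Y11 - Y01 ^ 2) =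
      ((x0 * x2 - x1 ^ 2) * (y0 * y2 - y1 ^ 2)) / 10 ^ 48 := by
    rw [hx0, hx1, hx2, hy0, hy1, hy2]; ring
  have hp1 := pP_le
  have hp2 := le_pP
  have hP0 : (0 : ℝ) ≤ (pP : ℝ) := by
    have : (0 : ℤ) ≤ pP := by unfold pP; norm_num
    exact_mod_cast this
  have hpi := Real.pi_pos
  have g1 : ((pP : ℝ) / 10 ^ 15) ^ 2 ≤ Real.pi ^ 2 := pow_le_pow_left₀ (by positivity) hp1 2
  have g2 : ((pP : ℝ) / 10 ^ 15) ^ 4 ≤ Real.pi ^ 4 := pow_le_pow_left₀ (by positivity) hp1 4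
  have g3 : Real.pi ^ 2 ≤ (((pP : ℝ) + 1) / 10 ^ 15) ^ 2 := pow_le_pow_left₀ hpi.le hp2 2
  rw [tr', de']
  constructor
  · have : T / 10 ^ 24 ≤ 2 * ((pP : ℝ) / 10 ^ 15) ^ 2 := by
      rw [div_le_iff₀ (by positivity)]
      have e : 2 * ((pP : ℝ) / 10 ^ 15) ^ 2 * 10 ^ 24 =
        (2 * (pP : ℝ) ^ 2 * (10 ^ 12) ^ 2) / 10 ^ 30 := by ring
      rw [e, le_div_iff₀ (by positivity)]
      exact f1'
    have h7 : (x0 * y0 + 2 * (x1 * y1) + x2 * y2) / 10 ^ 24 ≤ T / 10 ^ 24 := by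
      gcongr
    linarith
  · have h7 : Real.pi ^ 2 * ((x0 * y0 + 2 * (x1 * y1) + x2 * y2) / 10 ^ 24) ≤
        (((pP : ℝ) + 1) / 10 ^ 15) ^ 2 * (T / 10 ^ 24) := by
      have h8 : (x0 * y0 + 2 * (x1 * y1) + x2 * y2) / 10 ^ 24 ≤ T / 10 ^ 24 := by
        gcongr
      refine (mul_le_mul_of_nonneg_left h8 (by positivity)).trans ?_
      exact mul_le_mul_of_nonneg_right g3 (by positivity)
    have h9 : Pr / 10 ^ 48 ≤ ((x0 * x2 - x1 ^ 2) * (y0 * y2 - y1 ^ 2)) / 10 ^ 48 := by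
      gcongr
    have h10 : 0 ≤ ((pP : ℝ) / 10 ^ 15) ^ 4 - (((pP : ℝ) + 1) / 10 ^ 15) ^ 2 * (T / 10 ^ 24) +
        Pr / 10 ^ 48 := by
      have e : ((pP : ℝ) / 10 ^ 15) ^ 4 - (((pP : ℝ) + 1) / 10 ^ 15) ^ 2 * (T / 10 ^ 24) +
        Pr / 10 ^ 48 = ((pP : ℝ) ^ 4 * (10 ^ 12) ^ 4 - ((pP : ℝ) + 1) ^ 2 * 10 ^ 30 *
          T * (10 ^ 12) ^ 2 + Pr * 10 ^ 60) / 10 ^ 108 := by
        ring
      rw [e]
      positivity
    linarith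

end Pool.Agent.Run7.h583.Fill
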