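import Pool.Agent.Run7.h583.Fill.Chk
import Pool.Agent.N937.P1B_BND
import Pool.Agent.N189.P1B_VALN
import Pool.Agent.N979.P1.Fin
import Pool.Agent.N669.P1_JPOL

/-!
# Orientable fillings of the circle: from the Boolean tests to the bound of the area
-/

set_option autoImplicit false

namespace Pool.Agent.Run7.h583.Fill

open Pool.Agent.N979.P1 Pool.Agent.N954.P1

/-- the relations between consecutive rows -/
def step (R : ℤ) (s : Sec) (p x y : Row) : Bool :=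
  decide (y.a = x.a + x.c * s.t) && decide (x.b = y.b + 10 ^ 6 * x.c) &&
  decide (y.u = x.u + x.e * s.t) && decide (x.v = y.v + 10 ^ 6 * x.e) &&
  decide (x.e = p.e + R * (x.c - p.c))

/-- the test for the interval `J` -/
def Z.okJ (z : Z) (J : ℕ) (m m' : M6) : Bool :=
  decide ((z.rows (J + 1)).length = z.L + 1) && decide ((z.rows J).length = z.L + 1) &&
  decide ((z.row (J + 1) 0).a = 0) && decide ((z.row (J + 1) 0).u = 0) &&
  decide ((z.row (J + 1) z.L).b = 10 ^ 6 * (z.ka + z.mu (J + 1))) &&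
  decide ((z.row (J + 1) z.L).v = 10 ^ 6 * z.nu (J + 1)) &&
  decide (z.nu (J + 1) = z.nu J + z.rho J * (z.mu (J + 1) - z.mu J)) &&
  chain (step (z.rho J)) z.sec (z.rows J) (z.rows (J + 1)) &&
  cnd z.sec (z.rows (J + 1)) Row.p (z.rho J) m &&
  cnd z.sec (z.rows (J + 1)) Row.q (z.rho (J + 1)) m'

/-- the tangent of the angle of the sector `l` -/
def Z.xx (z : Z) (l : ℕ) : ℚ :=
  if l = 0 then (z.sc 0).t / 10 ^ 6 else if l = z.L then ((z.sc (l - 1)).t / 10 ^ 6 : ℚ)⁻¹ else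
    ((z.sc l).t / 10 ^ 6 - (z.sc (l - 1)).t / 10 ^ 6) /
      (1 + (z.sc (l - 1)).t / 10 ^ 6 * ((z.sc l).t / 10 ^ 6))

/-- the test for the sector `l` -/
def Z.okS (z : Z) (l : Fin (z.L + 1)) : Prop :=
  0 ≤ z.xx l.val ∧ ((z.sc l.val).d : ℚ) / 10 ^ 30 ≤ Pool.Agent.N937.P1B_BND.atn 14 (z.xx l.val) ∧
  Pool.Agent.N937.P1B_BND.atn 15 (z.xx l.val) ≤ (((z.sc l.val).d : ℚ) + 1) / 10 ^ 30 ∧
  ((z.sc l.val).cc : ℚ) - 1 ≤ (((z.sc l.val).d : ℚ) / 10 ^ 30 + sgQ z.dat.t l) / 2 * 10 ^ 28 ∧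
  ((((z.sc l.val).d : ℚ) + 1) / 10 ^ 30 + sgQ z.dat.t l) / 2 * 10 ^ 28 ≤ ((z.sc l.val).cc : ℚ) + 1 ∧
  ((z.sc l.val).ss : ℚ) - 1 ≤ (((z.sc l.val).d : ℚ) / 10 ^ 30 - sgQ z.dat.t l) / 2 * 10 ^ 28 ∧
  ((((z.sc l.val).d : ℚ) + 1) / 10 ^ 30 - sgQ z.dat.t l) / 2 * 10 ^ 28 ≤ ((z.sc l.val).ss : ℚ) + 1 ∧
  ((z.sc l.val).cs : ℚ) - 1 ≤ kpQ z.dat.t l / 2 * 10 ^ 28 ∧
  kpQ z.dat.t l / 2 * 10 ^ 28 ≤ ((z.sc l.val).cs : ℚ) + 1 ∧
  (((z.sc l.val).d : ℚ) + 1) / 10 ^ 30 * 10 ^ 28 ≤ ((z.sc l.val).dh : ℚ)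

instance (z : Z) (l : Fin (z.L + 1)) : Decidable (z.okS l) := by unfold Z.okS; infer_instance

theorem Z.tt_cast (z : Z) (i : Fin z.L) :
    z.dat.toDat.t i = (((((z.sc i.val).t : ℚ) / 10 ^ 6 : ℚ)) : ℝ) := rfl

theorem Z.Dl_eq (z : Z) (hL : 0 < z.L) (hpos : ∀ i, i < z.L → 0 < (z.sc i).t)
    (l : Fin (z.L + 1)) : Dl z.dat.toDat.t l = Real.arctan ((z.xx l.val : ℚ) : ℝ) := by
  have hq : ∀ i, i < z.L → (0 : ℚ) < ((z.sc i).t : ℚ) / 10 ^ 6 := fun i hi => by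
    have : (0 : ℚ) < ((z.sc i).t : ℚ) := by exact_mod_cast hpos i hi
    positivity
  unfold Dl up3 lo3 Z.xx
  by_cases h0 : l.val = 0
  · have h1 : l.val < z.L := by omega
    have h2 : ¬ 0 < l.val := by omega
    rw [dif_pos h1, dif_neg h2, if_pos h0]
    simp only [sub_zero]
    rw [z.tt_cast]
    simp only [h0]
  · have h2 : 0 < l.val := by omega
    rw [if_neg h0]
    by_cases h1 : l.val < z.L
    · have h3 : l.val ≠ z.L := by omega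
      rw [dif_pos h1, dif_pos h2, if_neg h3]
      simp only [z.tt_cast]
      exact Pool.Agent.N937.P1B_BND.arctan_diff _ _ (hq _ (by omega)).le (hq _ h1).le
    · have h3 : l.val = z.L := by have := l.isLt; omega
      rw [dif_neg h1, dif_pos h2, if_pos h3]
      simp only [z.tt_cast]
      have h4 : (0 : ℝ) < ((((z.sc (l.val - 1)).t : ℚ) / 10 ^ 6 : ℚ) : ℝ) := by
        exact_mod_cast hq (l.val - 1) (by omega)
      rw [← Real.arctan_inv_of_pos h4]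
      congr 1
      push_cast
      rfl

theorem Z.scOf (z : Z) (hL : 0 < z.L) (hlen : z.sec.length = z.L + 1)
    (hpos : ∀ i, i < z.L → 0 < (z.sc i).t) (h : ∀ l, z.okS l) : z.Sc := by
  have hD : ∀ l : Fin (z.L + 1), (((((z.sc l.val).d : ℚ) / 10 ^ 30 : ℚ)) : ℝ) ≤ Dl z.dat.toDat.t l ∧
      Dl z.dat.toDat.t l ≤ ((((((z.sc l.val).d : ℚ) + 1) / 10 ^ 30 : ℚ)) : ℝ) := fun l => by
    obtain ⟨h0, h1, h2, -⟩ := h l
    rw [z.Dl_eq hL hpos l]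
    exact Pool.Agent.N937.P1B_BND.bnd _ _ _ h0 h1 h2
  have hcc : ∀ l : Fin (z.L + 1), Icc2 z.dat.toDat.t l =
      (Dl z.dat.toDat.t l + ((sgQ z.dat.t l : ℚ) : ℝ)) / 2 := by
    intro l
    rw [← sg_real z.dat.t l]
    rfl
  have hss : ∀ l : Fin (z.L + 1), Iss2 z.dat.toDat.t l =
      (Dl z.dat.toDat.t l - ((sgQ z.dat.t l : ℚ) : ℝ)) / 2 := by
    intro l
    rw [← sg_real z.dat.t l]
    rfl
  have hcs : ∀ l : Fin (z.L + 1), Ics2 z.dat.toDat.t l = ((kpQ z.dat.t l : ℚ) : ℝ) / 2 := by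
    intro l
    rw [← kp_real z.dat.t l]
    rfl
  refine ⟨hlen, fun l => ?_, fun l => ?_, fun l => ?_, fun l => ?_⟩
  · obtain ⟨-, -, -, h3, h4, -⟩ := h l
    obtain ⟨d1, d2⟩ := hD l
    have h3' := (Rat.cast_le (K := ℝ)).2 h3
    have h4' := (Rat.cast_le (K := ℝ)).2 h4
    rw [hcc, abs_le]
    push_cast at h3' h4' d1 d2
    constructor <;> linarith
  · obtain ⟨-, -, -, -, -, -, -, h3, h4, -⟩ := h l
    have h3' := (Rat.cast_le (K := ℝ)).2 h3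
    have h4' := (Rat.cast_le (K := ℝ)).2 h4
    rw [hcs, abs_le]
    push_cast at h3' h4'
    constructor <;> linarith
  · obtain ⟨-, -, -, -, -, h3, h4, -⟩ := h l
    obtain ⟨d1, d2⟩ := hD l
    have h3' := (Rat.cast_le (K := ℝ)).2 h3
    have h4' := (Rat.cast_le (K := ℝ)).2 h4
    rw [hss, abs_le]
    push_cast at h3' h4' d1 d2
    constructor <;> linarith
  · obtain ⟨-, -, -, -, -, -, -, -, -, h3⟩ := h l
    obtain ⟨d1, d2⟩ := hD l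
    have h3' := (Rat.cast_le (K := ℝ)).2 h3
    push_cast at h3' d1 d2
    linarith

/-- all tests -/
structure Z.Ok (z : Z) : Prop where
  hN : 0 < z.N
  hL : 0 < z.L
  len : z.sec.length = z.L + 1
  row0 : ∀ i, (z.row 0 i).c = 0 ∧ (z.row 0 i).e = 0
  mu0 : z.mu 0 = 0
  nu0 : z.nu 0 = 0
  rho0 : 0 < z.rho 0
  rhoS : ∀ j, j < z.N → z.rho j < z.rho (j + 1)
  t0 : 0 < (z.sc 0).t
  tS : ∀ i, i + 1 < z.L → (z.sc i).t < (z.sc (i + 1)).t
  ka : |z.ka| ≤ 2 * 10 ^ 8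
  okS : ∀ l, z.okS l
  okJ : ∀ J, J < z.N → ∃ m m', z.okJ J m m' = true

theorem mono_of_step (f : ℕ → ℤ) (n : ℕ) (h : ∀ j, j < n → f j < f (j + 1)) :
    ∀ i j, i < j → j ≤ n → f i < f j := by
  intro i j hij
  induction j with
  | zero => omega
  | succ j ih =>
    intro hj
    rcases Nat.lt_succ_iff_lt_or_eq.1 hij with h1 | rfl
    · exact (ih h1 (by omega)).trans (h j (by omega))
    · exact h i (by omega)

theorem Z.Ok.rhoM {z : Z} (h : z.Ok) : ∀ i j, i < j → j ≤ z.N → z.rho i < z.rho j :=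
  mono_of_step z.rho z.N h.rhoS

theorem Z.Ok.tM {z : Z} (h : z.Ok) : ∀ i j, i < j → j < z.L → (z.sc i).t < (z.sc j).t := by
  intro i j hij hj
  exact mono_of_step (fun i => (z.sc i).t) (z.L - 1) (fun j hj => h.tS j (by omega)) i j hij
    (by omega)

theorem Z.Ok.rhoP {z : Z} (h : z.Ok) : ∀ j, j ≤ z.N → 0 < z.rho j := by
  intro j hj
  rcases Nat.eq_zero_or_pos j with rfl | h1
  · exact h.rho0
  · exact h.rho0.trans (h.rhoM 0 j h1 hj)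

theorem Z.Ok.tP {z : Z} (h : z.Ok) : ∀ i, i < z.L → 0 < (z.sc i).t := by
  intro j hj
  rcases Nat.eq_zero_or_pos j with rfl | h1
  · exact h.t0
  · exact h.t0.trans (h.tM 0 j h1 hj)

theorem Z.Ok.sc {z : Z} (h : z.Ok) : z.Sc := z.scOf h.hL h.len h.tP h.okS

/-- what the test says -/
theorem Z.okJ_spec {z : Z} {J : ℕ} {m m' : M6} (h : z.okJ J m m' = true)
    (hlen : z.sec.length = z.L + 1) :
    ((z.rows (J + 1)).length = z.L + 1 ∧ (z.rows J).length = z.L + 1 ∧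
    (z.row (J + 1) 0).a = 0 ∧ (z.row (J + 1) 0).u = 0 ∧
    (z.row (J + 1) z.L).b = 10 ^ 6 * (z.ka + z.mu (J + 1)) ∧
    (z.row (J + 1) z.L).v = 10 ^ 6 * z.nu (J + 1) ∧
    z.nu (J + 1) = z.nu J + z.rho J * (z.mu (J + 1) - z.mu J)) ∧
    (∀ i, i < z.L → (z.row (J + 1) (i + 1)).a =
      (z.row (J + 1) i).a + (z.row (J + 1) i).c * (z.sc i).t ∧
      (z.row (J + 1) i).b = (z.row (J + 1) (i + 1)).b + 10 ^ 6 * (z.row (J + 1) i).c ∧
      (z.row (J + 1) (i + 1)).u = (z.row (J + 1) i).u + (z.row (J + 1) i).e * (z.sc i).t ∧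
      (z.row (J + 1) i).v = (z.row (J + 1) (i + 1)).v + 10 ^ 6 * (z.row (J + 1) i).e ∧
      (z.row (J + 1) i).e = (z.row J i).e + z.rho J * ((z.row (J + 1) i).c - (z.row J i).c)) ∧
    cnd z.sec (z.rows (J + 1)) Row.p (z.rho J) m = true ∧
    cnd z.sec (z.rows (J + 1)) Row.q (z.rho (J + 1)) m' = true := by
  simp only [Z.okJ, Bool.and_eq_true, decide_eq_true_eq] at h
  obtain ⟨⟨⟨⟨⟨⟨⟨⟨⟨a1, a2⟩, a3⟩, a4⟩, a5⟩, a6⟩, a7⟩, a8⟩, a9⟩, a10⟩ := h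
  refine ⟨⟨a1, a2, a3, a4, a5, a6, a7⟩, fun i hi => ?_, a9, a10⟩
  have q := chain_spec _ i _ _ _ a8 (by omega) (by omega) (by omega)
  simp only [step, Bool.and_eq_true, decide_eq_true_eq] at q
  obtain ⟨⟨⟨⟨b1, b2⟩, b3⟩, b4⟩, b5⟩ := q
  exact ⟨b1, b2, b3, b4, b5⟩

theorem Z.Ok.tb {z : Z} (h : z.Ok) (J : ℕ) (hJ : J < z.N) : z.Tb J where
  hJ := hJ
  c0 := fun i => (h.row0 i).1
  mu0 := h.mu0
  e0 := fun i => (h.row0 i).2
  nu0 := h.nu0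
  rho := fun j hj => h.rhoP j hj.le
  nu := fun j hj => by
    obtain ⟨m, m', hm⟩ := h.okJ j (by omega)
    exact (Z.okJ_spec hm h.len).1.2.2.2.2.2.2
  e := fun j hj i hi => by
    obtain ⟨m, m', hm⟩ := h.okJ j (by omega)
    exact ((Z.okJ_spec hm h.len).2.1 i hi).2.2.2.2
  a0 := by
    obtain ⟨m, m', hm⟩ := h.okJ J hJ
    exact (Z.okJ_spec hm h.len).1.2.2.1
  a := fun i hi => by
    obtain ⟨m, m', hm⟩ := h.okJ J hJ
    exact ((Z.okJ_spec hm h.len).2.1 i hi).1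
  b0 := by
    obtain ⟨m, m', hm⟩ := h.okJ J hJ
    exact (Z.okJ_spec hm h.len).1.2.2.2.2.1
  b := fun i hi => by
    obtain ⟨m, m', hm⟩ := h.okJ J hJ
    exact ((Z.okJ_spec hm h.len).2.1 i hi).2.1
  u0 := by
    obtain ⟨m, m', hm⟩ := h.okJ J hJ
    exact (Z.okJ_spec hm h.len).1.2.2.2.1
  u := fun i hi => by
    obtain ⟨m, m', hm⟩ := h.okJ J hJ
    exact ((Z.okJ_spec hm h.len).2.1 i hi).2.2.1
  v0 := by
    obtain ⟨m, m', hm⟩ := h.okJ J hJ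
    exact (Z.okJ_spec hm h.len).1.2.2.2.2.2.1
  v := fun i hi => by
    obtain ⟨m, m', hm⟩ := h.okJ J hJ
    exact ((Z.okJ_spec hm h.len).2.1 i hi).2.2.2.1

theorem Z.Ok.cert {z : Z} (h : z.Ok) :
    Cert z.dat.toDat ((((z.rho z.N : ℚ) / 10 ^ 6 : ℚ)) : ℝ) where
  ka := by
    show |((((z.ka : ℚ) / 10 ^ 8 : ℚ)) : ℝ)| ≤ 2
    have := h.ka
    rw [abs_le] at this ⊢
    obtain ⟨h1, h2⟩ := this
    have h1' := (Int.cast_le (R := ℝ)).2 h1
    have h2' := (Int.cast_le (R := ℝ)).2 h2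
    push_cast at h1' h2' ⊢
    constructor <;> linarith
  pos := fun j => by
    show (0 : ℝ) < ((((z.rho j.val : ℚ) / 10 ^ 6 : ℚ)) : ℝ)
    have : (0 : ℝ) < (z.rho j.val : ℝ) := by exact_mod_cast h.rhoP j.val j.isLt.le
    push_cast
    positivity
  tpos := fun i => by
    rw [z.tt_cast]
    have : (0 : ℝ) < ((z.sc i.val).t : ℝ) := by exact_mod_cast h.tP i.val i.isLt
    push_cast
    positivity
  mono := fun i j hij => by
    show ((((z.rho i.val : ℚ) / 10 ^ 6 : ℚ)) : ℝ) < ((((z.rho j.val : ℚ) / 10 ^ 6 : ℚ)) : ℝ)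
    have : ((z.rho i.val : ℤ) : ℝ) < ((z.rho j.val : ℤ) : ℝ) := by
      exact_mod_cast h.rhoM i.val j.val hij j.isLt.le
    push_cast
    linarith
  tmono := fun i j hij => by
    rw [z.tt_cast, z.tt_cast]
    have : (((z.sc i.val).t : ℤ) : ℝ) < (((z.sc j.val).t : ℤ) : ℝ) := by
      exact_mod_cast h.tM i.val j.val hij j.isLt
    push_cast
    linarith
  ltR := fun j => by
    show ((((z.rho j.val : ℚ) / 10 ^ 6 : ℚ)) : ℝ) < ((((z.rho z.N : ℚ) / 10 ^ 6 : ℚ)) : ℝ)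
    have : ((z.rho j.val : ℤ) : ℝ) < ((z.rho z.N : ℤ) : ℝ) := by
      exact_mod_cast h.rhoM j.val z.N j.isLt le_rfl
    push_cast
    linarith
  lo := fun J => by
    obtain ⟨m, m', hm⟩ := h.okJ J.val J.isLt
    obtain ⟨⟨l1, -⟩, -, c1, c2⟩ := Z.okJ_spec hm h.len
    refine ⟨_, h.sc.cond (h.tb J.val J.isLt) l1 Row.p (z.rho J.val) m c1 _ _ (fun j => ?_)
      (fun j => ?_)⟩
    · unfold fA
      split_ifs <;> simp
    · unfold fC
      show (if j.val < J.val + 1 then 1 - ((z.dat.ρ j : ℚ) : ℝ) /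
        ((((z.rho J.val : ℚ) / 10 ^ 6 : ℚ)) : ℝ) else 0) = _
      split_ifs <;> simp
  hi := fun J r h1 h2 => by
    obtain ⟨m, m', hm⟩ := h.okJ J.val J.isLt
    obtain ⟨⟨l1, -⟩, -, c1, c2⟩ := Z.okJ_spec hm h.len
    have hr : r = ((((z.rho (J.val + 1) : ℚ) / 10 ^ 6 : ℚ)) : ℝ) := by
      by_cases hJ : J.val + 1 < z.N
      · rw [h1 hJ]
        rfl
      · have hJ' : J.val + 1 = z.N := by have := J.isLt; omega
        rw [h2 hJ', hJ']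
    subst hr
    refine ⟨_, h.sc.cond (h.tb J.val J.isLt) l1 Row.q (z.rho (J.val + 1)) m' c2 _ _ (fun j => ?_)
      (fun j => ?_)⟩
    · unfold fA
      split_ifs <;> simp
    · unfold fC
      show (if j.val < J.val + 1 then 1 - ((z.dat.ρ j : ℚ) : ℝ) /
        ((((z.rho (J.val + 1) : ℚ) / 10 ^ 6 : ℚ)) : ℝ) else 0) = _
      split_ifs <;> simp

end Pool.Agent.Run7.h583.Fill
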