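import Pool.Agent.N954.P1.Gen

/-!
# Orientable fillings of the circle: certificates by integers

The data of a calibration are given by cumulative tables of integers, and the numerical conditions
of the certificate are reduced to one Boolean test by integer arithmetic for every interval of radii.
-/

set_option autoImplicit false

namespace Pool.Agent.Run7.h583.Fill

open Pool.Agent.N979.P1 Pool.Agent.N954.P1

/-- one sector in the table of an interval of radii: the coefficients `c` of the clamp functions, the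
weighted coefficients `e`, the tables `a`, `b` of the sectors for `c`, the tables `u`, `v` for `e`,
and the weights `p`, `q` at the lower and the upper end -/
structure Row where
  c : ℤ
  e : ℤ
  a : ℤ
  b : ℤ
  u : ℤ
  v : ℤ
  p : ℤ
  q : ℤ

/-- the zero row -/
def Row.z : Row := ⟨0, 0, 0, 0, 0, 0, 0, 0⟩

/-- a sector: the integrals of `cos²`, `sin cos`, `sin²`, an upper bound of the angle, the slope `t`,
the number `√(1 + t²)`, and the angle with two more digits -/
structure Sec where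
  cc : ℤ
  cs : ℤ
  ss : ℤ
  dh : ℤ
  t : ℤ
  sq : ℤ
  d : ℤ

/-- the zero sector -/
def Sec.z : Sec := ⟨0, 0, 0, 0, 0, 0, 0⟩

/-- the six numbers -/
structure M6 where
  m0 : ℤ
  m1 : ℤ
  m2 : ℤ
  m3 : ℤ
  m4 : ℤ
  m5 : ℤ

/-- the data -/
structure Z where
  N : ℕ
  L : ℕ
  ka : ℤ
  rho : ℕ → ℤ
  sec : List Sec
  mu : ℕ → ℤ
  nu : ℕ → ℤ
  rows : ℕ → List Row

/-- the row `i` of the table `J` -/
def Z.row (z : Z) (J i : ℕ) : Row := (z.rows J).getD i Row.z

/-- the sector `i` -/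
def Z.sc (z : Z) (i : ℕ) : Sec := z.sec.getD i Sec.z

/-- the rational data -/
def Z.dat (z : Z) : DatQ z.N z.L where
  ka := z.ka / 10 ^ 8
  ρ := fun j => z.rho j.val / 10 ^ 6
  t := fun i => (z.sc i.val).t / 10 ^ 6
  m0 := fun j => (z.mu (j.val + 1) - z.mu j.val) / 10 ^ 8
  m := fun j i => ((z.row (j.val + 1) i.val).c - (z.row j.val i.val).c) / 10 ^ 8

/-! ### Sums over lists -/

/-- sums over two lists -/
def sum2 {α β : Type} (f : α → β → ℤ) : List α → List β → ℤ
  | x :: xs, y :: ys => f x y + sum2 f xs ys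
  | _, _ => 0

theorem sum2_eq {α β : Type} (f : α → β → ℤ) (dx : α) (dy : β) :
    ∀ (n : ℕ) (xs : List α) (ys : List β), xs.length = n → ys.length = n →
      sum2 f xs ys = ∑ i : Fin n, f (xs.getD i.val dx) (ys.getD i.val dy)
  | 0, xs, ys, h1, h2 => by
    obtain rfl := List.length_eq_zero_iff.1 h1
    simp [sum2]
  | n + 1, [], ys, h1, h2 => by simp at h1
  | n + 1, x :: xs, [], h1, h2 => by simp at h2
  | n + 1, x :: xs, y :: ys, h1, h2 => by
    rw [sum2, sum2_eq f dx dy n xs ys (by simpa using h1) (by simpa using h2),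
      Fin.sum_univ_succ]
    simp

/-- a condition for consecutive rows -/
def chain (P : Sec → Row → Row → Row → Bool) : List Sec → List Row → List Row → Bool
  | s :: ss, p :: ps, x :: y :: zs => P s p x y && chain P ss ps (y :: zs)
  | _, _, _ => true

theorem chain_spec (P : Sec → Row → Row → Row → Bool) : ∀ (i : ℕ) (ss : List Sec)
    (ps xs : List Row), chain P ss ps xs = true → i < ss.length → i < ps.length →
      i + 1 < xs.length → P (ss.getD i Sec.z) (ps.getD i Row.z) (xs.getD i Row.z)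
        (xs.getD (i + 1) Row.z) = true
  | i, [], ps, xs, h, h1, h2, h3 => by simp at h1
  | i, s :: ss, [], xs, h, h1, h2, h3 => by simp at h2
  | i, s :: ss, p :: ps, [], h, h1, h2, h3 => by simp at h3
  | i, s :: ss, p :: ps, [x], h, h1, h2, h3 => by simp at h3
  | 0, s :: ss, p :: ps, x :: y :: zs, h, h1, h2, h3 => by
    rw [chain, Bool.and_eq_true] at h
    simpa using h.1
  | i + 1, s :: ss, p :: ps, x :: y :: zs, h, h1, h2, h3 => by
    rw [chain, Bool.and_eq_true] at h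
    have := chain_spec P i ss ps (y :: zs) h.2 (by simpa using h1) (by simpa using h2)
      (by simpa using h3)
    simpa using this

/-! ### Telescoping sums -/

theorem tele (N n : ℕ) (h : n ≤ N) (g F : ℕ → ℚ) (h1 : ∀ j, j < n → F j = g (j + 1) - g j)
    (h2 : ∀ j, n ≤ j → j < N → F j = 0) : ∑ j ∈ Finset.range N, F j = g n - g 0 := by
  rw [← Finset.sum_range_sub]
  have e : ∑ j ∈ Finset.range n, (g (j + 1) - g j) = ∑ j ∈ Finset.range n, F j :=
    Finset.sum_congr rfl fun j hj => (h1 j (Finset.mem_range.1 hj)).symm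
  rw [e]
  symm
  refine Finset.sum_subset (Finset.range_mono h) fun j h3 hj => h2 j ?_ (Finset.mem_range.1 h3)
  simpa using hj

theorem tele' (N n : ℕ) (h : n ≤ N) (g F : ℕ → ℚ) (h1 : ∀ j, j < n → F j = 0)
    (h2 : ∀ j, n ≤ j → j < N → F j = g j - g (j + 1)) :
    ∑ j ∈ Finset.range N, F j = g n - g N := by
  have e := tele N N le_rfl (fun j => if j ≤ n then 0 else g n - g j) F ?_ ?_
  · rw [e]
    rcases h.eq_or_lt with rfl | h'
    · simp
    · simp [not_le.2 h']
  · intro j hj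
    rcases lt_trichotomy j n with hl | rfl | hl
    · rw [h1 j hl]
      simp [hl.le, Nat.succ_le_of_lt hl]
    · rw [h2 j le_rfl hj]
      simp
    · rw [h2 j hl.le hj]
      simp [not_le.2 hl, not_le.2 (Nat.lt_succ_of_lt hl)]
  · intro j h3 h4
    exact absurd h4 (not_lt.2 h3)

/-! ### The tables -/

section tables

variable (z : Z) (J : ℕ)

/-- the tables of the interval `J` -/
structure Z.Tb (z : Z) (J : ℕ) : Prop where
  hJ : J < z.N
  c0 : ∀ i, (z.row 0 i).c = 0
  mu0 : z.mu 0 = 0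
  e0 : ∀ i, (z.row 0 i).e = 0
  nu0 : z.nu 0 = 0
  rho : ∀ j, j < z.N → 0 < z.rho j
  nu : ∀ j, j < J + 1 → z.nu (j + 1) = z.nu j + z.rho j * (z.mu (j + 1) - z.mu j)
  e : ∀ j, j < J + 1 → ∀ i, i < z.L →
    (z.row (j + 1) i).e = (z.row j i).e + z.rho j * ((z.row (j + 1) i).c - (z.row j i).c)
  a0 : (z.row (J + 1) 0).a = 0
  a : ∀ i, i < z.L → (z.row (J + 1) (i + 1)).a =
    (z.row (J + 1) i).a + (z.row (J + 1) i).c * (z.sc i).t
  b0 : (z.row (J + 1) z.L).b = 10 ^ 6 * (z.ka + z.mu (J + 1))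
  b : ∀ i, i < z.L → (z.row (J + 1) i).b = (z.row (J + 1) (i + 1)).b + 10 ^ 6 * (z.row (J + 1) i).c
  u0 : (z.row (J + 1) 0).u = 0
  u : ∀ i, i < z.L → (z.row (J + 1) (i + 1)).u =
    (z.row (J + 1) i).u + (z.row (J + 1) i).e * (z.sc i).t
  v0 : (z.row (J + 1) z.L).v = 10 ^ 6 * z.nu (J + 1)
  v : ∀ i, i < z.L → (z.row (J + 1) i).v = (z.row (J + 1) (i + 1)).v + 10 ^ 6 * (z.row (J + 1) i).e

variable {z} {J}

theorem Z.Tb.tabA (h : z.Tb J) : Tab z.dat (fun j => if j.val < J + 1 then 1 else 0)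
    (fun i => (z.row (J + 1) i.val).c / 10 ^ 8) (z.mu (J + 1) / 10 ^ 8)
    (fun l => (z.row (J + 1) l.val).a / 10 ^ 14) (fun l => (z.row (J + 1) l.val).b / 10 ^ 14) where
  hc := by
    intro i
    rw [fs_eq]
    have e := Fin.sum_univ_eq_sum_range (fun j : ℕ => (if j < J + 1 then (1 : ℚ) else 0) *
      (((z.row (j + 1) i.val).c - (z.row j i.val).c) / 10 ^ 8)) z.N
    refine e.trans ?_
    rw [tele z.N (J + 1) h.hJ (fun j => ((z.row j i.val).c : ℚ) / 10 ^ 8)]
    · simp [h.c0]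
    · intro j hj
      rw [if_pos hj]
      ring
    · intro j hj _
      rw [if_neg (not_lt.2 hj)]
      ring
  hμ := by
    rw [fs_eq]
    have e := Fin.sum_univ_eq_sum_range (fun j : ℕ => (if j < J + 1 then (1 : ℚ) else 0) *
      ((z.mu (j + 1) - z.mu j) / 10 ^ 8)) z.N
    refine e.trans ?_
    rw [tele z.N (J + 1) h.hJ (fun j => (z.mu j : ℚ) / 10 ^ 8)]
    · simp [h.mu0]
    · intro j hj
      rw [if_pos hj]
      ring
    · intro j hj _
      rw [if_neg (not_lt.2 hj)]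
      ring
  hα := by
    intro l
    rw [fs_eq]
    have e := Fin.sum_univ_eq_sum_range (fun i : ℕ => if i < l.val then
      ((z.row (J + 1) i).c : ℚ) / 10 ^ 8 * ((z.sc i).t / 10 ^ 6) else 0) z.L
    refine e.trans ?_
    rw [tele z.L l.val (Nat.lt_succ_iff.1 l.isLt) (fun i => ((z.row (J + 1) i).a : ℚ) / 10 ^ 14)]
    · simp [h.a0]
    · intro i hi
      rw [if_pos hi, h.a i (hi.trans_le (Nat.lt_succ_iff.1 l.isLt))]
      push_cast
      ring
    · intro i hi _
      rw [if_neg (not_lt.2 hi)]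
  hβ := by
    intro l
    rw [fs_eq]
    have e := Fin.sum_univ_eq_sum_range (fun i : ℕ => if l.val ≤ i then
      ((z.row (J + 1) i).c : ℚ) / 10 ^ 8 else 0) z.L
    have e' := tele' z.L l.val (Nat.lt_succ_iff.1 l.isLt)
      (fun i => ((z.row (J + 1) i).b : ℚ) / 10 ^ 14)
      (fun i : ℕ => if l.val ≤ i then ((z.row (J + 1) i).c : ℚ) / 10 ^ 8 else 0)
      (fun i hi => if_neg (not_le.2 hi)) (fun i hi hi' => by
        rw [if_pos hi, h.b i hi']
        push_cast
        ring)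
    have e2 := e.trans e'
    have e3 : (∑ i : Fin z.L, if l.val ≤ i.val then
      ((z.row (J + 1) i.val).c : ℚ) / 10 ^ 8 else 0) = ((z.row (J + 1) l.val).b : ℚ) / 10 ^ 14 -
        ((z.row (J + 1) z.L).b : ℚ) / 10 ^ 14 := e2
    rw [e3, h.b0]
    show (z.ka : ℚ) / 10 ^ 8 + _ + _ = _
    push_cast
    ring

theorem Z.Tb.tabC (h : z.Tb J) (r : ℚ) (hr : 0 < r) :
    Tab z.dat (fun j => if j.val < J + 1 then 1 - z.dat.ρ j / r else 0)
    (fun i => (z.row (J + 1) i.val).c / 10 ^ 8 - (z.row (J + 1) i.val).e / (10 ^ 14 * r))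
    (z.mu (J + 1) / 10 ^ 8 - z.nu (J + 1) / (10 ^ 14 * r))
    (fun l => (z.row (J + 1) l.val).a / 10 ^ 14 - (z.row (J + 1) l.val).u / (10 ^ 20 * r))
    (fun l => (z.row (J + 1) l.val).b / 10 ^ 14 - (z.row (J + 1) l.val).v / (10 ^ 20 * r)) where
  hc := by
    intro i
    rw [fs_eq]
    have e := Fin.sum_univ_eq_sum_range (fun j : ℕ => ((if j < J + 1 then
      (1 : ℚ) - (z.rho j : ℚ) / 10 ^ 6 / r else 0 : ℚ) *
      ((((z.row (j + 1) i.val).c : ℚ) - ((z.row j i.val).c : ℚ)) / 10 ^ 8) : ℚ)) z.N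
    refine e.trans ?_
    rw [tele z.N (J + 1) h.hJ (fun j => ((z.row j i.val).c : ℚ) / 10 ^ 8 -
      ((z.row j i.val).e : ℚ) / (10 ^ 14 * r))]
    · simp [h.c0, h.e0]
    · intro j hj
      rw [if_pos hj, h.e j hj i.val i.isLt]
      push_cast
      field_simp
      ring
    · intro j hj _
      rw [if_neg (not_lt.2 hj)]
      ring
  hμ := by
    rw [fs_eq]
    have e := Fin.sum_univ_eq_sum_range (fun j : ℕ => ((if j < J + 1 then
      (1 : ℚ) - (z.rho j : ℚ) / 10 ^ 6 / r else 0 : ℚ) *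
      (((z.mu (j + 1) : ℚ) - (z.mu j : ℚ)) / 10 ^ 8) : ℚ)) z.N
    refine e.trans ?_
    rw [tele z.N (J + 1) h.hJ (fun j => (z.mu j : ℚ) / 10 ^ 8 -
      (z.nu j : ℚ) / (10 ^ 14 * r))]
    · simp [h.mu0, h.nu0]
    · intro j hj
      rw [if_pos hj, h.nu j hj]
      push_cast
      field_simp
      ring
    · intro j hj _
      rw [if_neg (not_lt.2 hj)]
      ring
  hα := by
    intro l
    rw [fs_eq]
    have e := Fin.sum_univ_eq_sum_range (fun i : ℕ => if i < l.val then
      (((z.row (J + 1) i).c : ℚ) / 10 ^ 8 - ((z.row (J + 1) i).e : ℚ) / (10 ^ 14 * r)) *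
        ((z.sc i).t / 10 ^ 6) else 0) z.L
    refine e.trans ?_
    rw [tele z.L l.val (Nat.lt_succ_iff.1 l.isLt) (fun i => ((z.row (J + 1) i).a : ℚ) / 10 ^ 14 -
      ((z.row (J + 1) i).u : ℚ) / (10 ^ 20 * r))]
    · simp [h.a0, h.u0]
    · intro i hi
      rw [if_pos hi, h.a i (hi.trans_le (Nat.lt_succ_iff.1 l.isLt)),
        h.u i (hi.trans_le (Nat.lt_succ_iff.1 l.isLt))]
      push_cast
      field_simp
      ring
    · intro i hi _
      rw [if_neg (not_lt.2 hi)]
  hβ := by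
    intro l
    rw [fs_eq]
    have e := Fin.sum_univ_eq_sum_range (fun i : ℕ => if l.val ≤ i then
      ((z.row (J + 1) i).c : ℚ) / 10 ^ 8 - ((z.row (J + 1) i).e : ℚ) / (10 ^ 14 * r) else 0) z.L
    have e' := tele' z.L l.val (Nat.lt_succ_iff.1 l.isLt)
      (fun i => ((z.row (J + 1) i).b : ℚ) / 10 ^ 14 -
        ((z.row (J + 1) i).v : ℚ) / (10 ^ 20 * r))
      (fun i : ℕ => if l.val ≤ i then ((z.row (J + 1) i).c : ℚ) / 10 ^ 8 -
        ((z.row (J + 1) i).e : ℚ) / (10 ^ 14 * r) else 0)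
      (fun i hi => if_neg (not_le.2 hi)) (fun i hi hi' => by
        rw [if_pos hi, h.b i hi', h.v i hi']
        push_cast
        field_simp
        ring)
    have e2 := e.trans e'
    have e3 : (∑ i : Fin z.L, if l.val ≤ i.val then
      ((z.row (J + 1) i.val).c : ℚ) / 10 ^ 8 - ((z.row (J + 1) i.val).e : ℚ) / (10 ^ 14 * r)
        else 0) = (((z.row (J + 1) l.val).b : ℚ) / 10 ^ 14 -
        ((z.row (J + 1) l.val).v : ℚ) / (10 ^ 20 * r)) -
        (((z.row (J + 1) z.L).b : ℚ) / 10 ^ 14 -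
        ((z.row (J + 1) z.L).v : ℚ) / (10 ^ 20 * r)) := e2
    rw [e3, h.b0, h.v0]
    show (z.ka : ℚ) / 10 ^ 8 + _ + _ = _
    push_cast
    field_simp
    ring

end tables

end Pool.Agent.Run7.h583.Fill
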