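import Pool.Agent.Run7.h583.Fill.Fin2

/-!
# Orientable fillings of the circle: the value
-/

set_option autoImplicit false

open MeasureTheory Metric Set Filter Topology InnerProductGeometry

namespace Pool.Agent.Run7.h583.Fill

open Pool.Agent.N979.P1 Pool.Agent.N954.P1
open Pool.Agent.H241R3.FV Pool.Agent.N526.CP

def v0 (s : Sec) (_ : Row) : ℤ :=
  if 0 ≤ s.sq ∧ s.sq ^ 2 ≤ 10 ^ 30 + s.t ^ 2 * 10 ^ 18 ∧
    10 ^ 30 + s.t ^ 2 * 10 ^ 18 ≤ (s.sq + 1) ^ 2 then 0 else 1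
def v1 (s : Sec) (x : Row) : ℤ := x.c * (10 ^ 15 + s.t * 10 ^ 9 - s.sq) - (x.c.natAbs : ℤ)
def v2 (s : Sec) (x : Row) : ℤ := x.e * (10 ^ 15 + s.t * 10 ^ 9 - s.sq) + (x.e.natAbs : ℤ)

/-- the test for the value -/
def Z.okV (z : Z) (C : ℤ) : Bool :=
  decide (0 < C) && decide ((z.row z.N z.L).c = 0) && decide ((z.row z.N z.L).e = 0) &&
  decide (sum2 v0 z.sec (z.rows z.N) = 0) &&
  decide (0 ≤ (z.ka + z.mu z.N) * 10 ^ 15 + sum2 v1 z.sec (z.rows z.N)) &&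
  decide (0 ≤ z.nu z.N * 10 ^ 15 + sum2 v2 z.sec (z.rows z.N)) &&
  decide (C * (pP + 1) ^ 2 * 10 ^ 11 ≤
    8 * ((z.ka + z.mu z.N) * 10 ^ 15 + sum2 v1 z.sec (z.rows z.N)) * 10 ^ 21 -
      4 * (z.nu z.N * 10 ^ 15 + sum2 v2 z.sec (z.rows z.N)) * (pP + 1))

theorem Z.Ok.aC_eq {z : Z} (h : z.Ok) (i : Fin z.L) :
    Pool.Agent.N189.P1BVALN.aC z.dat i = ((z.row z.N i.val).c : ℚ) / 10 ^ 8 := by
  unfold Pool.Agent.N189.P1BVALN.aC
  have e := Fin.sum_univ_eq_sum_range (fun j : ℕ =>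
      ((((z.row (j + 1) i.val).c : ℚ) - ((z.row j i.val).c : ℚ)) / 10 ^ 8 : ℚ)) z.N
  refine e.trans ?_
  rw [tele z.N z.N le_rfl (fun j => ((z.row j i.val).c : ℚ) / 10 ^ 8)]
  · simp [(h.row0 i.val).1]
  · intro j hj
    ring
  · intro j hj hj'
    omega

theorem Z.Ok.bC_eq {z : Z} (h : z.Ok) (i : Fin z.L) :
    Pool.Agent.N189.P1BVALN.bC z.dat i = ((z.row z.N i.val).e : ℚ) / 10 ^ 14 := by
  unfold Pool.Agent.N189.P1BVALN.bC
  have e := Fin.sum_univ_eq_sum_range (fun j : ℕ => ((z.rho j : ℚ) / 10 ^ 6 *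
      ((((z.row (j + 1) i.val).c : ℚ) - ((z.row j i.val).c : ℚ)) / 10 ^ 8) : ℚ)) z.N
  refine e.trans ?_
  rw [tele z.N z.N le_rfl (fun j => ((z.row j i.val).e : ℚ) / 10 ^ 14)]
  · simp [(h.row0 i.val).2]
  · intro j hj
    rw [(h.tb j hj).e j (by omega) i.val i.isLt]
    push_cast
    ring
  · intro j hj hj'
    omega

theorem Z.Ok.m0_eq {z : Z} (h : z.Ok) :
    ∑ j, (z.dat.m0 j : ℝ) = ((z.mu z.N : ℤ) : ℝ) / 10 ^ 8 := by
  have e1 : ∑ j, z.dat.m0 j = ((z.mu z.N : ℤ) : ℚ) / 10 ^ 8 := by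
    have e := Fin.sum_univ_eq_sum_range (fun j : ℕ =>
      (((z.mu (j + 1) : ℚ) - (z.mu j : ℚ)) / 10 ^ 8 : ℚ)) z.N
    refine e.trans ?_
    rw [tele z.N z.N le_rfl (fun j => (z.mu j : ℚ) / 10 ^ 8)]
    · simp [h.mu0]
    · intro j hj
      ring
    · intro j hj hj'
      omega
  have e2 := congrArg (fun x : ℚ => (x : ℝ)) e1
  push_cast at e2
  exact e2

theorem Z.Ok.n0_eq {z : Z} (h : z.Ok) :
    ∑ j, (z.dat.ρ j : ℝ) * (z.dat.m0 j : ℝ) = ((z.nu z.N : ℤ) : ℝ) / 10 ^ 14 := by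
  have e1 : ∑ j, z.dat.ρ j * z.dat.m0 j = ((z.nu z.N : ℤ) : ℚ) / 10 ^ 14 := by
    have e := Fin.sum_univ_eq_sum_range (fun j : ℕ => ((z.rho j : ℚ) / 10 ^ 6 *
      (((z.mu (j + 1) : ℚ) - (z.mu j : ℚ)) / 10 ^ 8) : ℚ)) z.N
    refine e.trans ?_
    rw [tele z.N z.N le_rfl (fun j => (z.nu j : ℚ) / 10 ^ 14)]
    · simp [h.nu0]
    · intro j hj
      rw [(h.tb j hj).nu j (by omega)]
      push_cast
      ring
    · intro j hj hj'
      omega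
  have e2 := congrArg (fun x : ℚ => (x : ℝ)) e1
  push_cast at e2
  exact e2

theorem Z.Ok.val {z : Z} (h : z.Ok) (C : ℤ) (hV : z.okV C = true) :
    (C : ℝ) / 1000 * Real.pi ≤ ValE z.dat.toDat := by
  simp only [Z.okV, Bool.and_eq_true, decide_eq_true_eq] at hV
  obtain ⟨⟨⟨⟨⟨⟨hC0, hc⟩, he⟩, hs⟩, hP⟩, hQ⟩, hC⟩ := hV
  have hlen : (z.rows z.N).length = z.L + 1 := by
    obtain ⟨m, m', hm⟩ := h.okJ (z.N - 1) (Nat.sub_lt h.hN one_pos)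
    have := (Z.okJ_spec hm h.len).1.1
    have e1 : z.N - 1 + 1 = z.N := by
      have := h.hN
      omega
    rwa [e1] at this
  rw [sum2_z h.len hlen] at hs
  rw [sum2_z h.len hlen] at hP hQ
  rw [sum2_z h.len hlen, sum2_z h.len hlen] at hC
  rw [Fin.sum_univ_castSucc] at hP hQ
  rw [Fin.sum_univ_castSucc, Fin.sum_univ_castSucc] at hC
  have z1 : v1 (z.sc (Fin.last z.L).val) (z.row z.N (Fin.last z.L).val) = 0 := by
    unfold v1
    rw [Fin.val_last, hc]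
    simp
  have z2 : v2 (z.sc (Fin.last z.L).val) (z.row z.N (Fin.last z.L).val) = 0 := by
    unfold v2
    rw [Fin.val_last, he]
    simp
  rw [z1, add_zero] at hP
  rw [z2, add_zero] at hQ
  rw [z1, z2, add_zero, add_zero] at hC
  simp only [Fin.val_castSucc] at hP hQ hC
  -- the square roots
  have hsq : ∀ i : Fin z.L, ((z.sc i.val).sq : ℝ) / 10 ^ 15 ≤ √(1 + (z.dat.t i : ℝ) ^ 2) ∧
      √(1 + (z.dat.t i : ℝ) ^ 2) ≤ (((z.sc i.val).sq : ℝ) + 1) / 10 ^ 15 := by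
    intro i
    have q := (Finset.sum_eq_zero_iff_of_nonneg (fun i _ => by
      unfold v0; split_ifs <;> norm_num)).1 hs i.castSucc (Finset.mem_univ _)
    have q' : 0 ≤ (z.sc i.val).sq ∧ (z.sc i.val).sq ^ 2 ≤ 10 ^ 30 + (z.sc i.val).t ^ 2 * 10 ^ 18 ∧
        10 ^ 30 + (z.sc i.val).t ^ 2 * 10 ^ 18 ≤ ((z.sc i.val).sq + 1) ^ 2 := by
      by_contra hcon
      unfold v0 at q
      rw [Fin.val_castSucc, if_neg hcon] at q
      exact one_ne_zero q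
    obtain ⟨q1, q2, q3⟩ := q'
    have q1' : (0 : ℝ) ≤ ((z.sc i.val).sq : ℝ) := by exact_mod_cast q1
    have q2' : ((z.sc i.val).sq : ℝ) ^ 2 ≤ 10 ^ 30 + ((z.sc i.val).t : ℝ) ^ 2 * 10 ^ 18 := by
      exact_mod_cast q2
    have q3' : 10 ^ 30 + ((z.sc i.val).t : ℝ) ^ 2 * 10 ^ 18 ≤ (((z.sc i.val).sq : ℝ) + 1) ^ 2 := by
      exact_mod_cast q3
    have ht : (z.dat.t i : ℝ) = ((z.sc i.val).t : ℝ) / 10 ^ 6 := by
      show (((((z.sc i.val).t : ℚ) / 10 ^ 6 : ℚ)) : ℝ) = _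
      push_cast
      rfl
    rw [ht]
    constructor
    · apply Real.le_sqrt_of_sq_le
      have e : (((z.sc i.val).sq : ℝ) / 10 ^ 15) ^ 2 = ((z.sc i.val).sq : ℝ) ^ 2 / 10 ^ 30 := by ring
      rw [e, div_le_iff₀ (by positivity)]
      refine q2'.trans (le_of_eq ?_)
      ring
    · rw [Real.sqrt_le_iff]
      refine ⟨by positivity, ?_⟩
      have e : ((((z.sc i.val).sq : ℝ) + 1) / 10 ^ 15) ^ 2 =
        (((z.sc i.val).sq : ℝ) + 1) ^ 2 / 10 ^ 30 := by ring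
      rw [e, le_div_iff₀ (by positivity)]
      refine le_trans (le_of_eq ?_) q3'
      ring
  have ht : ∀ i : Fin z.L, (z.dat.t i : ℝ) = ((z.sc i.val).t : ℝ) / 10 ^ 6 := fun i => by
    show (((((z.sc i.val).t : ℚ) / 10 ^ 6 : ℚ)) : ℝ) = _
    push_cast
    rfl
  rw [Pool.Agent.N189.P1BVALN.val_eq, h.m0_eq, h.n0_eq]
  simp only [h.aC_eq, h.bC_eq]
  set P : ℝ := ((z.ka : ℝ) + z.mu z.N) * 10 ^ 15 +
    ∑ i : Fin z.L, ((v1 (z.sc i.val) (z.row z.N i.val) : ℤ) : ℝ) with hPd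
  set Q : ℝ := (z.nu z.N : ℝ) * 10 ^ 15 +
    ∑ i : Fin z.L, ((v2 (z.sc i.val) (z.row z.N i.val) : ℤ) : ℝ) with hQd
  have hP' : 0 ≤ P := by
    have := (Int.cast_le (R := ℝ)).2 hP
    push_cast at this
    rw [hPd]
    linarith
  have hQ' : 0 ≤ Q := by
    have := (Int.cast_le (R := ℝ)).2 hQ
    push_cast at this
    rw [hQd]
    linarith
  have hC' : (C : ℝ) * ((pP : ℝ) + 1) ^ 2 * 10 ^ 11 ≤ 8 * P * 10 ^ 21 - 4 * Q * ((pP : ℝ) + 1) := by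
    have := (Int.cast_le (R := ℝ)).2 hC
    push_cast at this
    rw [hPd, hQd]
    norm_num at this ⊢
    exact this
  have bP : P / 10 ^ 23 ≤ (z.dat.ka : ℝ) + (z.mu z.N : ℝ) / 10 ^ 8 + ∑ i : Fin z.L,
      (((((z.row z.N i.val).c : ℚ) / 10 ^ 8 : ℚ)) : ℝ) *
        (1 + (z.dat.t i : ℝ) - √(1 + (z.dat.t i : ℝ) ^ 2)) := by
    have hka : (z.dat.ka : ℝ) = (z.ka : ℝ) / 10 ^ 8 := by
      show ((((z.ka : ℚ) / 10 ^ 8 : ℚ)) : ℝ) = _
      push_cast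
      rfl
    rw [hka, hPd, add_div, Finset.sum_div]
    refine add_le_add (le_of_eq (by ring)) (Finset.sum_le_sum fun i _ => ?_)
    obtain ⟨s1, s2⟩ := hsq i
    rw [ht i] at s1 s2 ⊢
    set s := √(1 + (((z.sc i.val).t : ℝ) / 10 ^ 6) ^ 2) with hsd
    unfold v1
    push_cast [Int.natCast_natAbs]
    have e1 : ((z.row z.N i.val).c : ℝ) * (s * 10 ^ 15 - (z.sc i.val).sq) ≤
        |((z.row z.N i.val).c : ℝ)| := by
      refine (le_abs_self _).trans ?_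
      rw [abs_mul]
      have : |s * 10 ^ 15 - ((z.sc i.val).sq : ℝ)| ≤ 1 := by
        rw [abs_le]
        rw [div_le_iff₀ (by positivity)] at s1
        rw [le_div_iff₀ (by positivity)] at s2
        constructor <;> linarith
      exact mul_le_of_le_one_right (abs_nonneg _) this
    rw [div_le_iff₀ (by positivity)]
    have e2 : ((z.row z.N i.val).c : ℝ) / 10 ^ 8 * (1 + ((z.sc i.val).t : ℝ) / 10 ^ 6 - s) * 10 ^ 23 =
        ((z.row z.N i.val).c : ℝ) * (10 ^ 15 + ((z.sc i.val).t : ℝ) * 10 ^ 9 - s * 10 ^ 15) := by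
      ring
    rw [e2]
    linarith
  have bQ : (z.nu z.N : ℝ) / 10 ^ 14 + ∑ i : Fin z.L,
      (((((z.row z.N i.val).e : ℚ) / 10 ^ 14 : ℚ)) : ℝ) *
        (1 + (z.dat.t i : ℝ) - √(1 + (z.dat.t i : ℝ) ^ 2)) ≤ Q / 10 ^ 29 := by
    rw [hQd, add_div, Finset.sum_div]
    refine add_le_add (le_of_eq (by ring)) (Finset.sum_le_sum fun i _ => ?_)
    obtain ⟨s1, s2⟩ := hsq i
    rw [ht i] at s1 s2 ⊢
    set s := √(1 + (((z.sc i.val).t : ℝ) / 10 ^ 6) ^ 2) with hsd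
    unfold v2
    push_cast [Int.natCast_natAbs]
    have e1 : -((z.row z.N i.val).e : ℝ) * (s * 10 ^ 15 - (z.sc i.val).sq) ≤
        |((z.row z.N i.val).e : ℝ)| := by
      refine (le_abs_self _).trans ?_
      rw [abs_mul, abs_neg]
      have : |s * 10 ^ 15 - ((z.sc i.val).sq : ℝ)| ≤ 1 := by
        rw [abs_le]
        rw [div_le_iff₀ (by positivity)] at s1
        rw [le_div_iff₀ (by positivity)] at s2
        constructor <;> linarith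
      exact mul_le_of_le_one_right (abs_nonneg _) this
    rw [le_div_iff₀ (by positivity)]
    have e2 : ((z.row z.N i.val).e : ℝ) / 10 ^ 14 * (1 + ((z.sc i.val).t : ℝ) / 10 ^ 6 - s) * 10 ^ 29 =
        ((z.row z.N i.val).e : ℝ) * (10 ^ 15 + ((z.sc i.val).t : ℝ) * 10 ^ 9 - s * 10 ^ 15) := by
      ring
    rw [e2]
    linarith
  have hpi := Real.pi_pos
  have hp2 := le_pP
  set p : ℝ := ((pP : ℝ) + 1) / 10 ^ 15 with hp
  have hp0 : 0 < p := hpi.trans_le hp2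
  -- the final inequality
  have k1 : (C : ℝ) / 1000 * p ^ 2 ≤ 8 * (P / 10 ^ 23) - 4 * (Q / 10 ^ 29) * p := by
    have e1 : (C : ℝ) / 1000 * p ^ 2 = ((C : ℝ) * ((pP : ℝ) + 1) ^ 2 * 10 ^ 11) / 10 ^ 44 := by
      rw [hp]; ring
    have e2 : 8 * (P / 10 ^ 23) - 4 * (Q / 10 ^ 29) * p =
        (8 * P * 10 ^ 21 - 4 * Q * ((pP : ℝ) + 1)) / 10 ^ 44 := by
      rw [hp]; ring
    rw [e1, e2]
    gcongr
  have k2 : (C : ℝ) / 1000 * Real.pi ≤ 4 * (2 / Real.pi * (P / 10 ^ 23) - Q / 10 ^ 29) := by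
    have hC0' : (0 : ℝ) < C := by exact_mod_cast hC0
    have k3 : (C : ℝ) / 1000 * Real.pi ^ 2 ≤ 8 * (P / 10 ^ 23) - 4 * (Q / 10 ^ 29) * Real.pi := by
      have a1 : (C : ℝ) / 1000 * Real.pi ^ 2 ≤ (C : ℝ) / 1000 * p ^ 2 := by
        have := pow_le_pow_left₀ hpi.le hp2 2
        exact mul_le_mul_of_nonneg_left this (by positivity)
      have a2 : 4 * (Q / 10 ^ 29) * Real.pi ≤ 4 * (Q / 10 ^ 29) * p :=
        mul_le_mul_of_nonneg_left hp2 (by positivity)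
      linarith
    have e : 4 * (2 / Real.pi * (P / 10 ^ 23) - Q / 10 ^ 29) * Real.pi =
        8 * (P / 10 ^ 23) - 4 * (Q / 10 ^ 29) * Real.pi := by
      field_simp
      ring
    refine le_of_mul_le_mul_right ?_ hpi
    rw [e]
    linarith
  refine k2.trans ?_
  have k4 : 2 / Real.pi * (P / 10 ^ 23) ≤ 2 / Real.pi * ((z.dat.ka : ℝ) + (z.mu z.N : ℝ) / 10 ^ 8 +
      ∑ i : Fin z.L, (((((z.row z.N i.val).c : ℚ) / 10 ^ 8 : ℚ)) : ℝ) *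
        (1 + (z.dat.t i : ℝ) - √(1 + (z.dat.t i : ℝ) ^ 2))) :=
    mul_le_mul_of_nonneg_left bP (by positivity)
  linarith

/-- The bound of the area. -/
theorem Z.Ok.area {z : Z} (h : z.Ok) (C : ℤ) (hV : z.okV C = true)
    (hR : (2 : ℝ) / Real.pi ≤ ((((z.rho z.N : ℚ) / 10 ^ 6 : ℚ)) : ℝ))
    (hR' : ∀ j, j < z.N → ((z.rho j : ℤ) : ℝ) / 10 ^ 6 ≤ 2 / Real.pi)
    (M : Type) [MetricSpace M] [CompactSpace M] (S : OFill 2 M)
    (hS : ∀ x y : Sph 2, angle (x : E 2) (y : E 2) ≤ dist (S.bd x) (S.bd y)) :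
    ENNReal.ofReal ((C : ℝ) / 1000 * Real.pi) ≤ S.vol := by
  refine Fin.bound Pool.Agent.N669.P1_JPOL.main z.dat ((z.rho z.N : ℚ) / 10 ^ 6) ((C : ℝ) / 1000)
    ⟨hR, h.cert⟩ ⟨fun j => ?_, h.val C hV⟩ S hS
  have e : (z.dat.toDat.ρ j : ℝ) = ((z.rho j.val : ℤ) : ℝ) / 10 ^ 6 := by
    show ((((z.rho j.val : ℚ) / 10 ^ 6 : ℚ)) : ℝ) = _
    push_cast
    rfl
  rw [e]
  exact hR' j.val j.isLt

end Pool.Agent.Run7.h583.Fill
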